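import Pool.Agent.H689R3.WeylOrbit
import Pool.Agent.H689R3.WeylGeomC

/-!
# Extremal rays of positive degree on blow-ups of projective space at very general points

For all `n ≥ 2` and `s ≥ n + 1` and `s` very general points of complex projective `n`-space, every
extremal ray of the closed cone of effective divisor classes of the blow-up on which the
anticanonical curve class is positive is spanned by a Weyl divisor.
-/

namespace Pool.Agent.Results.MP_e075e6_ag.PositiveExtremalRaysWeyl

open Pool.Agent.H689R3.Weyl

/-- The convex cone of effective real divisor classes of the blow-up of projective `n`-space at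
the points `p i`, generated by the classes of effective integral divisors. -/
noncomputable def effCone {n s : ℕ} (p : Fin s → Fin (n + 1) → ℂ) : PointedCone ℝ (NOne s) :=
  PointedCone.hull ℝ {x | ∃ D : NInt s, IsEffective p D ∧ x = toReal D}

/-- The closure of the cone of effective divisor classes. -/
def pseudoEffCone {n s : ℕ} (p : Fin s → Fin (n + 1) → ℂ) : Set (NOne s) :=
  closure (effCone p : Set (NOne s))

/-- The property `P` holds for very general `s`-tuples of points of projective `n`-space, given
by homogeneous coordinates: there are countably many nonzero polynomials in the coordinates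
such that `P p` holds whenever none of them vanishes at `p`. -/
def VeryGenerally {n s : ℕ} (P : (Fin s → Fin (n + 1) → ℂ) → Prop) : Prop :=
  ∃ G : ℕ → MvPolynomial (Fin s × Fin (n + 1)) ℂ, (∀ k, G k ≠ 0) ∧
    ∀ p : Fin s → Fin (n + 1) → ℂ,
      (∀ k, MvPolynomial.eval (fun ij => p ij.1 ij.2) (G k) ≠ 0) → P p

variable {s n : ℕ}

lemma weyl_effAll {D : NInt s} (hD : IsWeylDivisor n D) : EffAll n D := by
  induction hD with
  | exc i => exact effAll_exc i
  | perm σ D _ ih => exact effAll_perm σ D ih
  | crem I hI D _ ih => exact effAll_crem I hI D ih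

/-- closure of a hull inside a closed cone -/
lemma closure_hull_subset {S Q : Set (NOne s)} (hQ : IsClosed Q) (h0 : (0 : NOne s) ∈ Q)
    (hadd : ∀ x ∈ Q, ∀ y ∈ Q, x + y ∈ Q) (hsmul : ∀ t : ℝ, 0 ≤ t → ∀ x ∈ Q, t • x ∈ Q)
    (hS : S ⊆ Q) : closure (PointedCone.hull ℝ S : Set (NOne s)) ⊆ Q := by
  refine closure_minimal ?_ hQ
  intro x hx
  refine Submodule.span_induction (p := fun z _ => z ∈ Q) ?_ h0 ?_ ?_ hx
  · exact fun z hz => hS hz
  · exact fun z z' _ _ hz hz' => hadd z hz z' hz'
  · rintro ⟨a, ha⟩ z _ hz
    exact hsmul a ha z hz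

/-- truncation of a negative multiplicity -/
def trunc (i : Fin s) (x : NOne s) : NOne s := (x.1, Function.update x.2 i (max (x.2 i) 0))

lemma continuous_trunc (i : Fin s) : Continuous (trunc i : NOne s → NOne s) := by
  unfold trunc
  refine Continuous.prodMk continuous_fst ?_
  exact Continuous.update continuous_snd i (by fun_prop)

/-- the exceptional class -/
def exc (i : Fin s) : NInt s := (0, fun j => if j = i then -1 else 0)

lemma trunc_mem {C : PointedCone ℝ (NOne s)} {S : Set (NOne s)} (hC : C = PointedCone.hull ℝ S)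
    (i : Fin s) (hexc : toReal (exc i) ∈ C) (hS : ∀ x ∈ S, trunc i x ∈ C)
    (x : NOne s) (hx : x ∈ C) : trunc i x ∈ C := by
  have hx' : x ∈ PointedCone.hull ℝ S := hC ▸ hx
  refine Submodule.span_induction (p := fun z _ => trunc i z ∈ C) hS ?_ ?_ ?_ hx'
  · have : trunc i (0 : NOne s) = 0 := by
      ext1
      · simp [trunc]
      · funext j; simp [trunc]
    rw [this]; exact C.zero_mem
  · intro z z' _ _ hz hz'
    set a : ℝ := max (z.2 i) 0 + max (z'.2 i) 0 - max (z.2 i + z'.2 i) 0 with ha
    have ha0 : 0 ≤ a := by
      have h1 : max (z.2 i + z'.2 i) 0 ≤ max (z.2 i) 0 + max (z'.2 i) 0 := by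
        apply max_le
        · exact add_le_add (le_max_left _ _) (le_max_left _ _)
        · exact add_nonneg (le_max_right _ _) (le_max_right _ _)
      linarith
    have hdec : trunc i (z + z') = trunc i z + trunc i z' + a • toReal (exc i) := by
      ext1
      · simp [trunc, toReal, exc]
      · funext j
        by_cases hj : j = i
        · subst hj; simp [trunc, toReal, exc, ha]
        · simp [trunc, toReal, exc, hj]
    rw [hdec]
    exact C.add_mem (C.add_mem hz hz') (PointedCone.smul_mem _ ha0 hexc)
  · rintro ⟨a, ha⟩ z _ hz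
    have hdec : trunc i (a • z) = a • trunc i z := by
      ext1
      · simp [trunc]
      · funext j
        by_cases hj : j = i
        · subst hj
          simp only [trunc, Prod.smul_snd, Pi.smul_apply, smul_eq_mul, Function.update_self]
          rw [mul_max_of_nonneg _ _ ha, mul_zero]
        · simp [trunc, hj]
    change trunc i (a • z) ∈ C
    rw [hdec]
    exact PointedCone.smul_mem _ ha hz

/-- If effectivity at `p` agrees with effectivity for all configurations, the closed effective
cone has all the formal properties. -/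
lemma goodCone {p : Fin s → Fin (n + 1) → ℂ} (hp : ∀ D : NInt s, IsEffective p D → EffAll n D) :
    GoodCone s n (pseudoEffCone p) := by
  set S : Set (NOne s) := {x | ∃ D : NInt s, IsEffective p D ∧ x = toReal D} with hS
  have hcl : pseudoEffCone p = closure (PointedCone.hull ℝ S : Set (NOne s)) := rfl
  have hcoe : closure (PointedCone.hull ℝ S : Set (NOne s)) =
      ((PointedCone.hull ℝ S).topologicalClosure : Set (NOne s)) :=
    (Submodule.topologicalClosure_coe _).symm
  have hsub : (PointedCone.hull ℝ S : Set (NOne s)) ⊆ pseudoEffCone p := subset_closure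
  refine ⟨isClosed_closure, ?_, ?_, ?_, ?_, ?_, ?_, ?_, ?_⟩
  · intro x hx y hy
    rw [hcl, hcoe] at *
    exact Submodule.add_mem _ hx hy
  · intro t ht x hx
    rw [hcl, hcoe] at *
    exact PointedCone.smul_mem _ ht hx
  · intro I hI x hx
    refine map_mem_closure (continuous_crem I) hx ?_
    intro z hz
    refine Submodule.span_induction (p := fun z _ => crem n I z ∈ PointedCone.hull ℝ S)
      ?_ ?_ ?_ ?_ hz
    · rintro z ⟨D, hD, rfl⟩
      rw [← toReal_cremona]
      exact PointedCone.subset_hull ⟨_, effAll_crem I hI D (hp D hD) p, rfl⟩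
    · have := crem_smul (n := n) I 0 (0 : NOne s)
      rw [zero_smul, zero_smul] at this
      rw [this]; exact Submodule.zero_mem _
    · intro z z' _ _ h1 h2
      rw [crem_add]; exact Submodule.add_mem _ h1 h2
    · rintro ⟨a, ha⟩ z _ h1
      change crem n I (a • z) ∈ _
      rw [crem_smul]; exact PointedCone.smul_mem _ ha h1
  · rintro x ⟨D, hD, rfl⟩
    exact hsub (PointedCone.subset_hull ⟨D, weyl_effAll hD p, rfl⟩)
  · refine hsub (PointedCone.subset_hull ⟨(1, 0), effAll_hyper p, ?_⟩)
    ext1 <;> simp [toReal]; rfl
  · intro x hx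
    refine closure_hull_subset (Q := {x : NOne s | 0 ≤ x.1})
      (isClosed_le continuous_const continuous_fst) (by simp) ?_ ?_ ?_ hx
    · intro x hx y hy
      have h1 : 0 ≤ x.1 := hx
      have h2 : 0 ≤ y.1 := hy
      exact add_nonneg h1 h2
    · intro t ht x hx
      have h1 : 0 ≤ x.1 := hx
      exact mul_nonneg ht h1
    · rintro x ⟨D, hD, rfl⟩
      have := hD.1
      change (0 : ℝ) ≤ (D.1 : ℝ)
      exact_mod_cast this
  · intro x hx i
    refine closure_hull_subset (Q := {x : NOne s | x.2 i ≤ x.1})
      (isClosed_le (by fun_prop) (by fun_prop)) (by simp) ?_ ?_ ?_ hx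
    · intro x hx y hy
      have h1 : x.2 i ≤ x.1 := hx
      have h2 : y.2 i ≤ y.1 := hy
      exact add_le_add h1 h2
    · intro t ht x hx
      have h1 : x.2 i ≤ x.1 := hx
      exact mul_le_mul_of_nonneg_left h1 ht
    · rintro x ⟨D, hD, rfl⟩
      obtain ⟨h0, f, hf0, hf, hm⟩ := hp D hD (fun _ => bas 0)
      obtain ⟨a, ha⟩ := MvPolynomial.support_nonempty.2 hf0
      have h1 := exponent_le hf 0 (hm i) ha
      change (D.2 i : ℝ) ≤ (D.1 : ℝ)
      have h2 : (D.2 i : ℤ) ≤ D.1 := by
        have h3 := Int.self_le_toNat (D.2 i)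
        have h4 : (D.1.toNat : ℤ) = D.1 := Int.toNat_of_nonneg h0
        omega
      exact_mod_cast h2
  · intro x hx i hneg
    have hexc : toReal (exc i) ∈ PointedCone.hull ℝ S :=
      PointedCone.subset_hull ⟨exc i, effAll_exc i p, rfl⟩
    have h1 : trunc i x ∈ pseudoEffCone p := by
      refine map_mem_closure (continuous_trunc i) hx ?_
      refine trunc_mem rfl i hexc ?_
      rintro z ⟨D, ⟨h0, f, hf0, hf, hm⟩, rfl⟩
      refine PointedCone.subset_hull ⟨(D.1, Function.update D.2 i (max (D.2 i) 0)),
        ⟨h0, f, hf0, hf, ?_⟩, ?_⟩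
      · intro j
        by_cases hj : j = i
        · subst hj
          have := hm j
          unfold VanishesToOrder at this ⊢
          have h2 : (max (D.2 j) 0).toNat = (D.2 j).toNat := by omega
          simpa [h2] using this
        · simpa [Function.update_of_ne hj] using hm j
      · ext1
        · simp [trunc, toReal]
        · funext j
          by_cases hj : j = i
          · subst hj; simp [trunc, toReal]
          · simp [trunc, toReal, hj]
    have h2 : trunc i x = (x.1, Function.update x.2 i 0) := by
      unfold trunc; rw [max_eq_right hneg.le]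
    rw [← h2]; exact h1

/-- **Extremal rays of positive degree are spanned by Weyl divisors.**
Let `n ≥ 2` and `s ≥ n + 1`. For very general points `p 1, …, p s` of complex projective
`n`-space, every extremal ray of the closed cone of effective divisor classes of the blow-up
at these points on which `D · F > 0` is spanned by a Weyl divisor. -/
theorem result (n s : ℕ) (hn : 2 ≤ n) (hs : n + 1 ≤ s) :
    VeryGenerally (fun p : Fin s → Fin (n + 1) → ℂ =>
      ∀ x : NOne s, SpansExtremalRay (pseudoEffCone p) x → 0 < fDeg n x →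
        ∃ D : NInt s, IsWeylDivisor n D ∧ ∃ t : ℝ, 0 < t ∧ x = t • toReal D) := by
  classical
  obtain ⟨e, he⟩ := exists_surjective_nat (NInt s)
  have hG : ∀ D : NInt s, ∃ G : MvPolynomial (Fin s × Fin (n + 1)) ℂ, G ≠ 0 ∧
      (¬ EffAll n D → ∀ p, IsEffective p D → MvPolynomial.eval (flat p) G = 0) := by
    intro D
    by_cases hD : EffAll n D
    · exact ⟨1, one_ne_zero, fun h => absurd hD h⟩
    · have hD' := hD
      unfold EffAll at hD'
      push Not at hD'
      obtain ⟨p', hp'⟩ := hD'
      obtain ⟨G, hG0, hG⟩ := exists_poly D p' hp'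
      exact ⟨G, hG0, fun _ => hG⟩
  choose G hG0 hG using hG
  refine ⟨fun k => G (e k), fun k => hG0 _, fun p hp x hx hF => ?_⟩
  have hgood : ∀ D : NInt s, IsEffective p D → EffAll n D := by
    intro D hD
    by_contra hcon
    obtain ⟨k, rfl⟩ := he D
    exact hp k (hG _ hcon p hD)
  obtain ⟨v, ⟨D, hD, rfl⟩, t, ht, hxt⟩ := extremal_weyl hn hs (goodCone hgood) hx hF
  exact ⟨D, hD, t, ht, hxt⟩

end Pool.Agent.Results.MP_e075e6_ag.PositiveExtremalRaysWeyl
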